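import Mathlib
import Pool.Agent.TH881.RG.Defs

/-! Job 1232: moments of sums over units modulo a primorial. -/

set_option autoImplicit false

namespace Pool.Agent.TH703.RGA

open Finset

lemma two_all : ∀ u v : ZMod 2, u ≠ 0 → v ≠ 0 → u = v := by decide

section loc

variable (p : ℕ) [hp : Fact p.Prime]

/-- the local ratio -/
noncomputable def xl : ℝ := if p = 2 then 1 else ((p : ℝ) - 1) / ((p : ℝ) - 2)

/-- the local weight -/
noncomputable def wl (r : ZMod p) : ℝ := if r = 0 then 1 else ((p : ℝ) - 2) / ((p : ℝ) - 1)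

open Classical in
/-- the local count -/
noncomputable def Nl {K : ℕ} (τ : Fin K → ZMod p) : ℕ :=
  (univ.filter fun a : ZMod p => a ≠ 0 ∧ ∀ j, τ j ≠ a).card

open Classical in
/-- the local correction -/
noncomputable def Gl : ∀ {K : ℕ}, (Fin K → ZMod p) → ℝ
  | 0, _ => 1
  | _ + 1, τ => (if ∃ l, τ (Fin.succ l) = τ 0 then xl p else 1) * Gl (fun l => τ (Fin.succ l))

lemma two_le : (2 : ℝ) ≤ p := by exact_mod_cast hp.out.two_le

lemma xl_ge : 1 ≤ xl p := by
  unfold xl
  split_ifs with h
  · exact le_rfl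
  · have h2 := hp.out.two_le
    have h3 : 3 ≤ p := by omega
    have h3' : (3 : ℝ) ≤ p := by exact_mod_cast h3
    rw [le_div_iff₀ (by linarith)]
    linarith

lemma wl_nonneg (r : ZMod p) : 0 ≤ wl p r := by
  unfold wl
  have := two_le p
  split_ifs
  · exact zero_le_one
  · exact div_nonneg (by linarith) (by linarith)

lemma wl_le (r : ZMod p) : wl p r ≤ 1 := by
  unfold wl
  have := two_le p
  split_ifs
  · exact le_rfl
  · rw [div_le_one (by linarith)]
    linarith

lemma Gl_ge : ∀ {K : ℕ} (τ : Fin K → ZMod p), 1 ≤ Gl p τ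
  | 0, _ => le_rfl
  | K + 1, τ => by
    unfold Gl
    have h1 := Gl_ge (fun l => τ (Fin.succ l))
    have h2 := xl_ge p
    split_ifs
    · nlinarith
    · linarith

lemma Nl_le {K : ℕ} (τ : Fin K → ZMod p) : (Nl p τ : ℝ) ≤ (p : ℝ) - 1 := by
  classical
  have h1 : Nl p τ ≤ (univ.erase (0 : ZMod p)).card := by
    unfold Nl
    apply card_le_card
    intro a ha
    rw [mem_filter] at ha
    rw [mem_erase]
    exact ⟨ha.2.1, mem_univ _⟩
  rw [card_erase_of_mem (mem_univ _), card_univ, ZMod.card] at h1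
  have h2 := hp.out.one_le
  have h3 : Nl p τ + 1 ≤ p := by omega
  have : (Nl p τ : ℝ) + 1 ≤ p := by exact_mod_cast h3
  linarith

lemma local_bound : ∀ {K : ℕ} (τ : Fin K → ZMod p),
    (Nl p τ : ℝ) / ((p : ℝ) - 1) ≤ (∏ j, wl p (τ j)) * Gl p τ
  | 0, τ => by
    have h1 := Nl_le p τ
    have h2 := two_le p
    simp only [univ_eq_empty, prod_empty, Gl, mul_one]
    rw [div_le_one (by linarith)]
    exact h1
  | K + 1, τ => by
    classical
    have ih := local_bound (fun l => τ (Fin.succ l))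
    set τ' : Fin K → ZMod p := fun l => τ (Fin.succ l) with hτ'
    have h2 := two_le p
    have hN := Nl_le p τ'
    have hG := Gl_ge p τ'
    have hx := xl_ge p
    have hprod : (∏ j, wl p (τ j)) = wl p (τ 0) * ∏ j, wl p (τ' j) := by
      rw [Fin.prod_univ_succ]
    have hP0 : 0 ≤ ∏ j, wl p (τ' j) := prod_nonneg fun j _ => wl_nonneg p _
    have hB0 : 0 ≤ (∏ j, wl p (τ' j)) * Gl p τ' := mul_nonneg hP0 (by linarith)
    have hmono : Nl p τ ≤ Nl p τ' := by
      unfold Nl
      apply card_le_card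
      intro a ha
      rw [mem_filter] at ha ⊢
      exact ⟨mem_univ _, ha.2.1, fun j => ha.2.2 _⟩
    have hmono' : (Nl p τ : ℝ) / ((p : ℝ) - 1) ≤ (Nl p τ' : ℝ) / ((p : ℝ) - 1) := by
      apply div_le_div_of_nonneg_right _ (by linarith)
      exact_mod_cast hmono
    rw [hprod]
    by_cases h0 : τ 0 = 0
    · have hw : wl p (τ 0) = 1 := by unfold wl; rw [if_pos h0]
      rw [hw, one_mul]
      have hg : Gl p τ' ≤ Gl p τ := by
        conv_rhs => unfold Gl
        rw [← hτ']
        split_ifs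
        · nlinarith
        · linarith
      calc (Nl p τ : ℝ) / ((p : ℝ) - 1) ≤ (Nl p τ' : ℝ) / ((p : ℝ) - 1) := hmono'
        _ ≤ (∏ j, wl p (τ' j)) * Gl p τ' := ih
        _ ≤ _ := mul_le_mul_of_nonneg_left hg hP0
    · have hw : wl p (τ 0) = ((p : ℝ) - 2) / ((p : ℝ) - 1) := by unfold wl; rw [if_neg h0]
      by_cases hr : ∃ l, τ (Fin.succ l) = τ 0
      · have hg : Gl p τ = xl p * Gl p τ' := by
          conv_lhs => unfold Gl
          rw [if_pos hr]
        rw [hw, hg]
        by_cases hp2 : p = 2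
        · -- the count is zero
          have hz : Nl p τ = 0 := by
            unfold Nl
            rw [card_eq_zero, filter_eq_empty_iff]
            rintro a - ⟨ha0, ha⟩
            have hall : ∀ u v : ZMod p, u ≠ 0 → v ≠ 0 → u = v := by
              subst hp2
              exact two_all
            exact ha 0 (hall _ _ h0 ha0)
          rw [hz]
          rw [Nat.cast_zero, zero_div]
          apply mul_nonneg
          · apply mul_nonneg _ hP0
            exact div_nonneg (by linarith) (by linarith)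
          · exact mul_nonneg (by linarith) (by linarith)
        · have h3 : 3 ≤ p := by
            have := hp.out.two_le
            omega
          have h3' : (3 : ℝ) ≤ p := by exact_mod_cast h3
          have hx' : xl p = ((p : ℝ) - 1) / ((p : ℝ) - 2) := by unfold xl; rw [if_neg hp2]
          rw [hx']
          have hcanc : ((p : ℝ) - 2) / ((p : ℝ) - 1) * (∏ j, wl p (τ' j)) *
              (((p : ℝ) - 1) / ((p : ℝ) - 2) * Gl p τ') = (∏ j, wl p (τ' j)) * Gl p τ' := by
            have e1 : (p : ℝ) - 1 ≠ 0 := by linarith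
            have e2 : (p : ℝ) - 2 ≠ 0 := by linarith
            field_simp
          rw [hcanc]
          exact hmono'.trans ih
      · have hg : Gl p τ = Gl p τ' := by
          conv_lhs => unfold Gl
          rw [if_neg hr, one_mul]
        rw [hw, hg]
        have hstrict : Nl p τ + 1 ≤ Nl p τ' := by
          unfold Nl
          apply Nat.succ_le_of_lt
          apply card_lt_card
          rw [ssubset_iff]
          refine ⟨τ 0, ?_, ?_⟩
          · rw [mem_filter]
            rintro ⟨-, -, h⟩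
            exact h 0 rfl
          · intro a ha
            rw [mem_insert] at ha
            rcases ha with rfl | ha
            · rw [mem_filter]
              refine ⟨mem_univ _, h0, fun j hj => hr ⟨j, hj⟩⟩
            · rw [mem_filter] at ha ⊢
              exact ⟨mem_univ _, ha.2.1, fun j => ha.2.2 _⟩
        have hs' : (Nl p τ : ℝ) + 1 ≤ Nl p τ' := by exact_mod_cast hstrict
        have hp1 : (0 : ℝ) < (p : ℝ) - 1 := by linarith
        have key : (Nl p τ : ℝ) ≤ ((p : ℝ) - 2) / ((p : ℝ) - 1) * Nl p τ' := by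
          rw [div_mul_eq_mul_div, le_div_iff₀ hp1]
          nlinarith
        calc (Nl p τ : ℝ) / ((p : ℝ) - 1)
            ≤ (((p : ℝ) - 2) / ((p : ℝ) - 1) * Nl p τ') / ((p : ℝ) - 1) :=
              div_le_div_of_nonneg_right key hp1.le
          _ = ((p : ℝ) - 2) / ((p : ℝ) - 1) * ((Nl p τ' : ℝ) / ((p : ℝ) - 1)) := by ring
          _ ≤ ((p : ℝ) - 2) / ((p : ℝ) - 1) * ((∏ j, wl p (τ' j)) * Gl p τ') := by
              apply mul_le_mul_of_nonneg_left ih
              exact div_nonneg (by linarith) hp1.le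
          _ = _ := by ring

lemma sum_wl : ∑ r : ZMod p, wl p r = (p : ℝ) - 1 := by
  classical
  have h2 := two_le p
  have e1 : (p : ℝ) - 1 ≠ 0 := by linarith
  rw [← add_sum_erase univ _ (mem_univ (0 : ZMod p))]
  have h0 : wl p 0 = 1 := by unfold wl; rw [if_pos rfl]
  rw [h0]
  have h1 : ∑ r ∈ univ.erase (0 : ZMod p), wl p r
      = ∑ r ∈ univ.erase (0 : ZMod p), ((p : ℝ) - 2) / ((p : ℝ) - 1) := by
    apply sum_congr rfl
    intro r hr
    unfold wl
    rw [if_neg (ne_of_mem_erase hr)]
  rw [h1, sum_const, card_erase_of_mem (mem_univ _), card_univ, ZMod.card, nsmul_eq_mul,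
    Nat.cast_sub hp.out.one_le]
  push_cast
  field_simp
  ring

lemma local_sum (K0 k : ℕ) : ∀ K : ℕ, K ≤ K0 →
    ∑ τ : Fin K → ZMod p, (∏ j, wl p (τ j)) * Gl p τ ^ k ≤
      ((p : ℝ) - 1) ^ K * (1 + (K0 : ℝ) / ((p : ℝ) - 1) * (xl p ^ k - 1)) ^ (K - 1) := by
  classical
  have h2 := two_le p
  have hp1 : (0 : ℝ) < (p : ℝ) - 1 := by linarith
  have hxk : 0 ≤ xl p ^ k - 1 := by
    have := one_le_pow₀ (xl_ge p) (n := k)
    linarith
  have hF1 : 1 ≤ 1 + (K0 : ℝ) / ((p : ℝ) - 1) * (xl p ^ k - 1) := by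
    have : 0 ≤ (K0 : ℝ) / ((p : ℝ) - 1) * (xl p ^ k - 1) := by positivity
    linarith
  intro K
  induction K with
  | zero =>
    intro _
    simp [Gl]
  | succ K ih =>
    intro hK
    have ih' := ih (by omega)
    have hsplit : ∑ τ : Fin (K + 1) → ZMod p, (∏ j, wl p (τ j)) * Gl p τ ^ k
        = ∑ τ' : Fin K → ZMod p, (∏ j, wl p (τ' j)) * Gl p τ' ^ k *
            ∑ r : ZMod p, wl p r * (if ∃ l, τ' l = r then xl p else 1) ^ k := by
      rw [← (Fin.consEquiv (fun _ => ZMod p)).sum_comp, Fintype.sum_prod_type, sum_comm]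
      apply sum_congr rfl
      intro τ' _
      rw [mul_sum]
      apply sum_congr rfl
      intro r _
      have e1 : (∏ j, wl p ((Fin.consEquiv fun _ => ZMod p) (r, τ') j))
          = wl p r * ∏ j, wl p (τ' j) := by
        rw [Fin.prod_univ_succ]
        simp [Fin.consEquiv]
      have e2 : Gl p ((Fin.consEquiv fun _ => ZMod p) (r, τ'))
          = (if ∃ l, τ' l = r then xl p else 1) * Gl p τ' := by
        conv_lhs => unfold Gl
        simp [Fin.consEquiv]
      rw [e1, e2, mul_pow]
      ring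
    have hinner : ∀ τ' : Fin K → ZMod p,
        ∑ r : ZMod p, wl p r * (if ∃ l, τ' l = r then xl p else 1) ^ k
          ≤ ((p : ℝ) - 1) + K * (xl p ^ k - 1) := by
      intro τ'
      have e1 : ∀ r : ZMod p, wl p r * (if ∃ l, τ' l = r then xl p else 1) ^ k
          ≤ wl p r + (if r ∈ univ.image τ' then (xl p ^ k - 1) else 0) := by
        intro r
        have hm : (r ∈ univ.image τ') ↔ ∃ l, τ' l = r := by
          rw [mem_image]
          constructor
          · rintro ⟨l, -, h⟩; exact ⟨l, h⟩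
          · rintro ⟨l, h⟩; exact ⟨l, mem_univ _, h⟩
        have hw1 := wl_le p r
        have hw0 := wl_nonneg p r
        by_cases h : ∃ l, τ' l = r
        · rw [if_pos h, if_pos (hm.2 h)]
          nlinarith
        · rw [if_neg h, if_neg (fun h' => h (hm.1 h'))]
          simp
      calc ∑ r : ZMod p, wl p r * (if ∃ l, τ' l = r then xl p else 1) ^ k
          ≤ ∑ r : ZMod p, (wl p r + (if r ∈ univ.image τ' then (xl p ^ k - 1) else 0)) :=
            sum_le_sum fun r _ => e1 r
        _ = ((p : ℝ) - 1) + (univ.image τ').card * (xl p ^ k - 1) := by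
            rw [sum_add_distrib, sum_wl, ← sum_filter]
            congr 1
            rw [sum_const, nsmul_eq_mul]
            congr 2
            congr 1
            ext r
            simp
        _ ≤ _ := by
            have hc : (univ.image τ').card ≤ K := by
              refine card_image_le.trans ?_
              simp
            have hc' : ((univ.image τ').card : ℝ) ≤ K := by exact_mod_cast hc
            nlinarith
    rw [hsplit]
    have hnn : ∀ τ' : Fin K → ZMod p, 0 ≤ (∏ j, wl p (τ' j)) * Gl p τ' ^ k := by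
      intro τ'
      apply mul_nonneg (prod_nonneg fun j _ => wl_nonneg p _)
      have := Gl_ge p τ'
      positivity
    have hstep : ∑ τ' : Fin K → ZMod p, (∏ j, wl p (τ' j)) * Gl p τ' ^ k *
            ∑ r : ZMod p, wl p r * (if ∃ l, τ' l = r then xl p else 1) ^ k
        ≤ (∑ τ' : Fin K → ZMod p, (∏ j, wl p (τ' j)) * Gl p τ' ^ k) *
          (((p : ℝ) - 1) + K * (xl p ^ k - 1)) := by
      rw [sum_mul]
      exact sum_le_sum fun τ' _ => mul_le_mul_of_nonneg_left (hinner τ') (hnn τ')
    refine hstep.trans ?_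
    rcases Nat.eq_zero_or_pos K with rfl | hKpos
    · simp [Gl]
    · have hlast : ((p : ℝ) - 1) + K * (xl p ^ k - 1)
          ≤ ((p : ℝ) - 1) * (1 + (K0 : ℝ) / ((p : ℝ) - 1) * (xl p ^ k - 1)) := by
        have e1 : ((p : ℝ) - 1) * (1 + (K0 : ℝ) / ((p : ℝ) - 1) * (xl p ^ k - 1))
            = ((p : ℝ) - 1) + K0 * (xl p ^ k - 1) := by
          field_simp
        rw [e1]
        have : (K : ℝ) ≤ K0 := by exact_mod_cast (by omega : K ≤ K0)
        nlinarith
      have hlast0 : 0 ≤ ((p : ℝ) - 1) + K * (xl p ^ k - 1) := by positivity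
      have hR0 : 0 ≤ ((p : ℝ) - 1) ^ K *
          (1 + (K0 : ℝ) / ((p : ℝ) - 1) * (xl p ^ k - 1)) ^ (K - 1) := by
        positivity
      calc (∑ τ' : Fin K → ZMod p, (∏ j, wl p (τ' j)) * Gl p τ' ^ k) *
          (((p : ℝ) - 1) + K * (xl p ^ k - 1))
          ≤ (((p : ℝ) - 1) ^ K * (1 + (K0 : ℝ) / ((p : ℝ) - 1) * (xl p ^ k - 1)) ^ (K - 1)) *
            (((p : ℝ) - 1) * (1 + (K0 : ℝ) / ((p : ℝ) - 1) * (xl p ^ k - 1))) :=
            mul_le_mul ih' hlast hlast0 hR0
        _ = ((p : ℝ) - 1) ^ (K + 1) *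
            (1 + (K0 : ℝ) / ((p : ℝ) - 1) * (xl p ^ k - 1)) ^ (K + 1 - 1) := by
            have : K + 1 - 1 = (K - 1) + 1 := by omega
            rw [this, pow_succ, pow_succ]
            ring

end loc

section glob

variable {ι : Type} [Fintype ι] [DecidableEq ι] (q : ι → ℕ) [hq : ∀ i, Fact (q i).Prime]

/-- units of the product -/
def Un (a : ∀ i, ZMod (q i)) : Prop := ∀ i, a i ≠ 0

open Classical in
lemma count_prod {K : ℕ} (T : Fin K → ∀ i, ZMod (q i)) :
    (univ.filter fun a : ∀ i, ZMod (q i) => Un q a ∧ ∀ j, Un q (T j - a)).card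
      = ∏ i, Nl (q i) (fun j => T j i) := by
  have h : (univ.filter fun a : ∀ i, ZMod (q i) => Un q a ∧ ∀ j, Un q (T j - a))
      = Fintype.piFinset (fun i => univ.filter fun a : ZMod (q i) => a ≠ 0 ∧ ∀ j, T j i ≠ a) := by
    ext a
    rw [mem_filter, Fintype.mem_piFinset]
    constructor
    · rintro ⟨-, h1, h2⟩ i
      rw [mem_filter]
      refine ⟨mem_univ _, h1 i, fun j hj => h2 j i ?_⟩
      show T j i - a i = 0
      rw [hj, sub_self]
    · intro h
      refine ⟨mem_univ _, fun i => ?_, fun j i hj => ?_⟩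
      · exact ((mem_filter.1 (h i)).2).1
      · apply ((mem_filter.1 (h i)).2).2 j
        exact sub_eq_zero.1 hj
  rw [h, Fintype.card_piFinset]
  rfl

/-- number of units -/
noncomputable def phi : ℝ := ∏ i, ((q i : ℝ) - 1)

lemma phi_pos : 0 < phi q := by
  unfold phi
  apply prod_pos
  intro i _
  have := two_le (q i)
  linarith

open Classical in
/-- global weight -/
noncomputable def wg (t : ∀ i, ZMod (q i)) : ℝ :=
  ((univ.filter fun a : ∀ i, ZMod (q i) => Un q a ∧ Un q (t - a)).card : ℝ) / phi q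

lemma wl_count (p : ℕ) [hp : Fact p.Prime] (r : ZMod p) :
    (Nl p (fun _ : Fin 1 => r) : ℝ) / ((p : ℝ) - 1) = wl p r := by
  classical
  have h2 := two_le p
  have hp1 : (0 : ℝ) < (p : ℝ) - 1 := by linarith
  unfold wl
  by_cases h : r = 0
  · rw [if_pos h]
    have e : Nl p (fun _ : Fin 1 => r) = p - 1 := by
      unfold Nl
      have : (univ.filter fun a : ZMod p => a ≠ 0 ∧ ∀ _j : Fin 1, r ≠ a) = univ.erase 0 := by
        ext a
        rw [mem_filter, mem_erase]
        subst h
        constructor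
        · rintro ⟨-, h1, -⟩; exact ⟨h1, mem_univ _⟩
        · rintro ⟨h1, -⟩; exact ⟨mem_univ _, h1, fun _ h2 => h1 h2.symm⟩
      rw [this, card_erase_of_mem (mem_univ _), card_univ, ZMod.card]
    rw [e, Nat.cast_sub hp.out.one_le]
    push_cast
    exact div_self hp1.ne'
  · rw [if_neg h]
    have e : Nl p (fun _ : Fin 1 => r) = p - 2 := by
      unfold Nl
      have : (univ.filter fun a : ZMod p => a ≠ 0 ∧ ∀ _j : Fin 1, r ≠ a)
          = (univ.erase 0).erase r := by
        ext a
        rw [mem_filter, mem_erase, mem_erase]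
        constructor
        · rintro ⟨-, h1, h2⟩; exact ⟨fun h3 => h2 0 h3.symm, h1, mem_univ _⟩
        · rintro ⟨h1, h2, -⟩; exact ⟨mem_univ _, h2, fun _ h3 => h1 h3.symm⟩
      rw [this, card_erase_of_mem (mem_erase.2 ⟨h, mem_univ _⟩), card_erase_of_mem (mem_univ _),
        card_univ, ZMod.card]
      omega
    rw [e, Nat.cast_sub hp.out.two_le]
    push_cast
    rfl

lemma wg_eq (t : ∀ i, ZMod (q i)) : wg q t = ∏ i, wl (q i) (t i) := by
  classical
  unfold wg phi
  have h := count_prod q (fun _ : Fin 1 => t)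
  have h' : (univ.filter fun a : ∀ i, ZMod (q i) => Un q a ∧ Un q (t - a)).card
      = ∏ i, Nl (q i) (fun _ : Fin 1 => t i) := by
    rw [← h]
    congr 1
    ext a
    rw [mem_filter, mem_filter]
    constructor
    · rintro ⟨h1, h2, h3⟩; exact ⟨h1, h2, fun _ => h3⟩
    · rintro ⟨h1, h2, h3⟩; exact ⟨h1, h2, h3 0⟩
  rw [h', Nat.cast_prod, ← prod_div_distrib]
  exact prod_congr rfl fun i _ => wl_count (q i) (t i)

lemma wg_nonneg (t : ∀ i, ZMod (q i)) : 0 ≤ wg q t := by
  rw [wg_eq]
  exact prod_nonneg fun i _ => wl_nonneg _ _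

open Classical in
/-- The moment inequality on a product of prime fields. -/
theorem moment_prod (K k : ℕ) (_hK : 1 ≤ K) (hk : 1 ≤ k) (e : (∀ i, ZMod (q i)) → ℝ)
    (he0 : ∀ t, 0 ≤ e t) (he1 : ∀ t, e t ≤ 1) (S : ℝ) (hS : S = ∑ t, e t * wg q t) (hS0 : 0 < S) :
    (∑ a ∈ univ.filter (fun a : ∀ i, ZMod (q i) => Un q a),
        (∑ t, if Un q (t - a) then e t else 0) ^ K) / phi q ≤
      S ^ K * ((phi q / S) ^ K *
        (∏ i, (1 + (K : ℝ) / ((q i : ℝ) - 1) * (xl (q i) ^ k - 1))) ^ (K - 1)) ^ (1 / (k : ℝ)) := by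
  have hphi := phi_pos q
  -- correction factor
  set G : (Fin K → ∀ i, ZMod (q i)) → ℝ := fun T => ∏ i, Gl (q i) (fun j => T j i) with hG
  have hG1 : ∀ T, 1 ≤ G T := by
    intro T
    rw [hG]
    calc (1 : ℝ) = ∏ _i : ι, (1 : ℝ) := by simp
      _ ≤ _ := prod_le_prod (fun _ _ => zero_le_one) (fun i _ => Gl_ge _ _)
  set E : (Fin K → ∀ i, ZMod (q i)) → ℝ := fun T => ∏ j, (e (T j) * wg q (T j)) with hE
  have hE0 : ∀ T, 0 ≤ E T := fun T => prod_nonneg fun j _ => mul_nonneg (he0 _) (wg_nonneg q _)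
  -- step 1: expand
  have h1 : (∑ a ∈ univ.filter (fun a : ∀ i, ZMod (q i) => Un q a),
        (∑ t, if Un q (t - a) then e t else 0) ^ K) / phi q ≤ ∑ T, E T * G T := by
    have hexp : ∀ a : (∀ i, ZMod (q i)), (∑ t, if Un q (t - a) then e t else 0) ^ K
        = ∑ T : Fin K → ∀ i, ZMod (q i), ∏ j, (if Un q (T j - a) then e (T j) else 0) := by
      intro a
      rw [Fintype.sum_pow]
    simp_rw [hexp]
    rw [sum_comm, sum_div]
    apply sum_le_sum
    intro T _
    have h2 : ∀ a : (∀ i, ZMod (q i)), (∏ j, (if Un q (T j - a) then e (T j) else 0))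
        = if ∀ j, Un q (T j - a) then ∏ j, e (T j) else 0 := by
      intro a
      by_cases h : ∀ j, Un q (T j - a)
      · rw [if_pos h]
        exact prod_congr rfl fun j _ => if_pos (h j)
      · rw [if_neg h]
        push Not at h
        obtain ⟨j, hj⟩ := h
        exact prod_eq_zero (mem_univ j) (if_neg hj)
    simp_rw [h2]
    rw [← sum_filter, filter_filter, sum_const, nsmul_eq_mul, count_prod]
    have h3 : E T * G T = (∏ j, e (T j)) * ∏ i, ((∏ j, wl (q i) (T j i)) * Gl (q i) (fun j => T j i)) := by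
      rw [hE, hG]
      simp only
      rw [prod_mul_distrib, prod_mul_distrib]
      have : (∏ j, wg q (T j)) = ∏ i, ∏ j, wl (q i) (T j i) := by
        rw [prod_comm]
        exact prod_congr rfl fun j _ => wg_eq q (T j)
      rw [this]
      ring
    rw [h3, Nat.cast_prod]
    have h4 : (∏ i, (Nl (q i) (fun j => T j i) : ℝ)) * (∏ j, e (T j)) / phi q
        = (∏ j, e (T j)) * ∏ i, ((Nl (q i) (fun j => T j i) : ℝ) / ((q i : ℝ) - 1)) := by
      rw [prod_div_distrib]
      unfold phi
      ring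
    rw [h4]
    apply mul_le_mul_of_nonneg_left _ (prod_nonneg fun j _ => he0 _)
    apply prod_le_prod
    · intro i _
      have := two_le (q i)
      exact div_nonneg (Nat.cast_nonneg _) (by linarith)
    · intro i _
      exact local_bound (q i) _
  -- step 2: total mass
  have h2 : ∑ T, E T = S ^ K := by
    rw [hS, hE, Fintype.sum_pow]
  -- step 3: the k-th moment of the correction
  have h3 : ∑ T, E T * G T ^ k ≤ phi q ^ K *
        (∏ i, (1 + (K : ℝ) / ((q i : ℝ) - 1) * (xl (q i) ^ k - 1))) ^ (K - 1) := by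
    have e1 : ∀ T, E T * G T ^ k
        ≤ ∏ i, ((∏ j, wl (q i) (T j i)) * Gl (q i) (fun j => T j i) ^ k) := by
      intro T
      rw [prod_mul_distrib, prod_pow]
      apply mul_le_mul_of_nonneg_right
      · rw [hE, prod_comm]
        apply prod_le_prod
        · intro j _
          exact mul_nonneg (he0 _) (wg_nonneg q _)
        · intro j _
          rw [wg_eq]
          have := prod_nonneg (s := univ) (f := fun i => wl (q i) (T j i)) fun i _ => wl_nonneg _ _
          nlinarith [he1 (T j)]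
      · exact pow_nonneg (zero_le_one.trans (hG1 T)) _
    have e2 : ∑ T : Fin K → ∀ i, ZMod (q i),
        ∏ i, ((∏ j, wl (q i) (T j i)) * Gl (q i) (fun j => T j i) ^ k)
        = ∏ i, ∑ τ : Fin K → ZMod (q i), ((∏ j, wl (q i) (τ j)) * Gl (q i) τ ^ k) := by
      rw [Fintype.prod_sum]
      apply Fintype.sum_equiv (Equiv.piComm fun (_ : Fin K) (i : ι) => ZMod (q i))
      intro T
      rfl
    calc ∑ T, E T * G T ^ k
        ≤ ∑ T : Fin K → ∀ i, ZMod (q i),
          ∏ i, ((∏ j, wl (q i) (T j i)) * Gl (q i) (fun j => T j i) ^ k) :=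
          sum_le_sum fun T _ => e1 T
      _ = ∏ i, ∑ τ : Fin K → ZMod (q i), ((∏ j, wl (q i) (τ j)) * Gl (q i) τ ^ k) := e2
      _ ≤ ∏ i, (((q i : ℝ) - 1) ^ K *
          (1 + (K : ℝ) / ((q i : ℝ) - 1) * (xl (q i) ^ k - 1)) ^ (K - 1)) := by
          apply prod_le_prod
          · intro i _
            apply sum_nonneg
            intro τ _
            apply mul_nonneg (prod_nonneg fun j _ => wl_nonneg _ _)
            exact pow_nonneg (zero_le_one.trans (Gl_ge _ _)) _
          · intro i _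
            exact local_sum (q i) K k K le_rfl
      _ = _ := by
          rw [prod_mul_distrib, prod_pow, prod_pow]
          rfl
  -- step 4: power mean
  have hSK : 0 < S ^ K := pow_pos hS0 K
  have h4 : (∑ T, E T * G T / S ^ K) ^ k ≤ ∑ T, E T * G T ^ k / S ^ K := by
    have := Real.pow_arith_mean_le_arith_mean_pow univ (fun T => E T / S ^ K) G
      (fun T _ => div_nonneg (hE0 T) hSK.le)
      (by rw [← sum_div, h2, div_self hSK.ne']) (fun T _ => zero_le_one.trans (hG1 T)) k
    calc (∑ T, E T * G T / S ^ K) ^ k = (∑ T, E T / S ^ K * G T) ^ k := by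
          congr 1
          exact sum_congr rfl fun T _ => by ring
      _ ≤ ∑ T, E T / S ^ K * G T ^ k := this
      _ = _ := sum_congr rfl fun T _ => by ring
  have hL0 : 0 ≤ ∑ T, E T * G T / S ^ K :=
    sum_nonneg fun T _ => div_nonneg (mul_nonneg (hE0 T) (zero_le_one.trans (hG1 T))) hSK.le
  set M : ℝ := (∏ i, (1 + (K : ℝ) / ((q i : ℝ) - 1) * (xl (q i) ^ k - 1))) ^ (K - 1) with hM
  have h5 : (∑ T, E T * G T / S ^ K) ^ k ≤ (phi q / S) ^ K * M := by
    refine h4.trans ?_
    rw [← sum_div, div_pow, div_mul_eq_mul_div]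
    exact div_le_div_of_nonneg_right h3 hSK.le
  have h6 : ∑ T, E T * G T / S ^ K ≤ ((phi q / S) ^ K * M) ^ (1 / (k : ℝ)) := by
    have hk0 : (k : ℝ) ≠ 0 := by
      have : 0 < k := hk
      positivity
    have hroot : ∀ L : ℝ, 0 ≤ L → L = (L ^ k) ^ (1 / (k : ℝ)) := by
      intro L hL
      rw [← Real.rpow_natCast, ← Real.rpow_mul hL, mul_one_div_cancel hk0, Real.rpow_one]
    calc ∑ T, E T * G T / S ^ K = ((∑ T, E T * G T / S ^ K) ^ k) ^ (1 / (k : ℝ)) := hroot _ hL0
      _ ≤ _ := Real.rpow_le_rpow (pow_nonneg hL0 k) h5 (by positivity)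
  calc _ ≤ ∑ T, E T * G T := h1
    _ = S ^ K * ∑ T, E T * G T / S ^ K := by
        rw [mul_sum]
        exact sum_congr rfl fun T _ => by field_simp
    _ ≤ _ := mul_le_mul_of_nonneg_left h6 hSK.le

end glob

end Pool.Agent.TH703.RGA

/-! ### Transport to the integers modulo a primorial -/

namespace Pool.Agent.TH703.RG

open Finset
open Pool.Agent.TH881 Pool.Agent.TH881.RG
open Pool.Agent.H373R2.T7
open Pool.Agent.TH703.RGA

lemma totient_prod (s : Finset ℕ) (hs : ∀ p ∈ s, p.Prime) :
    Nat.totient (∏ p ∈ s, p) = ∏ p ∈ s, (p - 1) := by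
  classical
  induction s using Finset.induction_on with
  | empty => simp
  | insert a s ha ih =>
    rw [prod_insert ha, prod_insert ha, Nat.totient_mul, ih (fun p hp => hs p (mem_insert_of_mem hp)),
      Nat.totient_prime (hs a (mem_insert_self _ _))]
    apply Nat.Coprime.prod_right
    intro p hp
    rw [Nat.coprime_primes (hs a (mem_insert_self _ _)) (hs p (mem_insert_of_mem hp))]
    rintro rfl
    exact ha hp

open Classical in
theorem moment_ineq (w K k : ℕ) (hw : 2 ≤ w) (hK : 1 ≤ K) (hk : 1 ≤ k) (e : ZMod (Wp w) → ℝ)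
    (he0 : ∀ t, 0 ≤ e t) (he1 : ∀ t, e t ≤ 1) (S : ℝ) (hS : S = ∑ t, e t * wt w t) (hS0 : 0 < S) :
    (∑ a ∈ univ.filter (fun a : ZMod (Wp w) => IsUnit a), rr w e a ^ K) / Nat.totient (Wp w) ≤
      S ^ K * (((Nat.totient (Wp w) : ℝ) / S) ^ K * MM K k w ^ (K - 1)) ^ (1 / (k : ℝ)) := by
  let ι : Type := {p : ℕ // p ∈ pz w}
  let q : ι → ℕ := fun i => i.1
  have hprime : ∀ i : ι, (q i).Prime := fun i => (mem_pz.1 i.2).2
  have : ∀ i : ι, Fact (q i).Prime := fun i => ⟨hprime i⟩
  have hW : Wp w = ∏ i : ι, q i := by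
    unfold Wp
    exact (prod_coe_sort (pz w) (fun p => p)).symm
  have hcop : Pairwise (Function.onFun Nat.Coprime q) := by
    intro i j hij
    show Nat.Coprime (q i) (q j)
    rw [Nat.coprime_primes (hprime i) (hprime j)]
    exact fun h => hij (Subtype.ext h)
  have hφ : Nonempty (ZMod (Wp w) ≃+* ∀ i, ZMod (q i)) := by
    rw [hW]
    exact ⟨ZMod.prodEquivPi q hcop⟩
  obtain ⟨φ⟩ := hφ
  have hunit : ∀ x : ZMod (Wp w), IsUnit x ↔ Un q (φ x) := by
    intro x
    rw [← MulEquiv.isUnit_map φ, Pi.isUnit_iff]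
    exact forall_congr' fun i => isUnit_iff_ne_zero
  have htot : (Nat.totient (Wp w) : ℝ) = phi q := by
    unfold Wp phi
    rw [totient_prod _ (fun p hp => (mem_pz.1 hp).2), Nat.cast_prod,
      ← prod_coe_sort (pz w) (fun p => ((p - 1 : ℕ) : ℝ))]
    apply prod_congr rfl
    intro i _
    rw [Nat.cast_sub (hprime i).one_le]
    push_cast
    rfl
  have hMM : MM K k w = ∏ i : ι, (1 + (K : ℝ) / ((q i : ℝ) - 1) * (xl (q i) ^ k - 1)) := by
    unfold MM
    rw [prod_filter, ← prod_coe_sort (pz w)]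
    apply prod_congr rfl
    intro i _
    show (if 2 < q i then _ else _) = _
    by_cases h2 : 2 < q i
    · rw [if_pos h2]
      have : xl (q i) = ((q i : ℝ) - 1) / ((q i : ℝ) - 2) := by
        unfold xl
        rw [if_neg (by omega)]
      rw [this]
    · rw [if_neg h2]
      have h3 : q i = 2 := by
        have := (hprime i).two_le
        omega
      have : xl (q i) = 1 := by
        unfold xl
        rw [if_pos h3]
      rw [this]
      simp
  have hwt : ∀ t, wt w t = wg q (φ t) := by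
    intro t
    unfold wt wg
    rw [htot]
    congr 2
    apply card_bij (fun a _ => φ a)
    · intro a ha
      rw [mem_filter] at ha ⊢
      refine ⟨mem_univ _, (hunit a).1 ha.2.1, ?_⟩
      rw [← map_sub]
      exact (hunit _).1 ha.2.2
    · intro a _ b _ h
      exact φ.injective h
    · intro b hb
      refine ⟨φ.symm b, ?_, φ.apply_symm_apply b⟩
      rw [mem_filter] at hb ⊢
      refine ⟨mem_univ _, ?_, ?_⟩
      · rw [hunit, φ.apply_symm_apply]
        exact hb.2.1
      · rw [hunit, map_sub, φ.apply_symm_apply]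
        exact hb.2.2
  have hS' : S = ∑ t, (fun t => e (φ.symm t)) t * wg q t := by
    rw [hS]
    apply Fintype.sum_equiv φ.toEquiv
    intro t
    show e t * wt w t = e (φ.symm (φ t)) * wg q (φ t)
    rw [φ.symm_apply_apply, hwt]
  have main := moment_prod q K k hK hk (fun t => e (φ.symm t)) (fun t => he0 _) (fun t => he1 _) S
    hS' hS0
  rw [htot, hMM]
  refine le_trans (le_of_eq ?_) main
  congr 1
  apply sum_bij (fun a _ => φ a)
  · intro a ha
    rw [mem_filter] at ha ⊢
    exact ⟨mem_univ _, (hunit a).1 ha.2⟩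
  · intro a _ b _ h
    exact φ.injective h
  · intro b hb
    refine ⟨φ.symm b, ?_, φ.apply_symm_apply b⟩
    rw [mem_filter] at hb ⊢
    refine ⟨mem_univ _, ?_⟩
    rw [hunit, φ.apply_symm_apply]
    exact hb.2
  · intro a _
    congr 1
    unfold rr
    apply Fintype.sum_equiv φ.toEquiv
    intro t
    show (if IsUnit (t - a) then e t else 0) = if Un q (φ t - φ a) then e (φ.symm (φ t)) else 0
    rw [φ.symm_apply_apply, ← map_sub]
    by_cases h : IsUnit (t - a)
    · rw [if_pos h, if_pos ((hunit _).1 h)]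
    · rw [if_neg h, if_neg (fun h' => h ((hunit _).2 h'))]

end Pool.Agent.TH703.RG
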